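import Pool.Agent.H43.EW.UTFin
import Pool.Agent.H7.EW.Unary
import Pool.Agent.H43.EW.One
import Pool.Agent.H40.EW.Time

set_option autoImplicit false

/-!
# Oracles relative to which PSPACE is easy with little advice, but no total NP search problem is
# complete

The computation model is the one of `Pool.Agent.H88.RO.Model`, which also has `TFNP`; `InNP` is in
`Pool.Agent.H65.TS.Base`, `InP` in `Pool.Agent.H65.EW.Cls`, `InPSPACE` in
`Pool.Agent.H43.EW.Alt`, `InPAdv` in `Pool.Agent.H43.EW.Cls`, `InNPOne` in
`Pool.Agent.H43.EW.One`, `InTime` in `Pool.Agent.H40.EW.Time`, `Hst`, `TuringWithin` and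
`TuringRed` are in `Pool.Agent.H65.EW.TDef`.

Let `l n ≤ n` be monotone, computable in unary in polynomial time, and larger than `C log n` for
every `C`.  There is an oracle `O` relative to which every set in PSPACE is the union of a set in
NP and a set in coNP, is in NP with one bit of advice, in P with `l (r n)` bits of advice, and
decided in time `r (2 ^ l (r n))`, `r` a polynomial; and no total NP search problem is complete
under Turing reductions, not even for the problems with exactly one solution for each instance,
which depends only on the length of the instance.  (Many-one reductions are Turing reductions: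
`Pool.Agent.H65.EW.turingWithin_of_reducesWithin`; both are in the statement.)  For `l n = n` the
reductions may even run in time `C * 2 ^ (n ^ k)` (`Pool.Agent.H45.EW.small_exp`).

Proof.  The oracle has passwords `w` of length `l n`, for the statements `q` of length `n`, and
behind the password the truth values of these statements; truth depends only on the part of the
oracle up to the length of `q`.  Given a candidate `T` for a complete problem, either some
extension of what has been fixed makes `T` partial, or `T` is total for all extensions; then the
oracle gets exactly one element in each region of a sequence of regions, `S` asks for the element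
of the region which belongs to the length of the instance, and a reduction of `S` to `T` is run
while the region is empty and there are no passwords; the answer is made wrong by putting an
unread string into the region; all statements that have been read keep their truth values, because
new passwords are chosen which have not been read.
-/

namespace Pool.Agent.Results.MP_0a7732_lc.LittleAdvice

open Pool.Agent.H88.RO Pool.Agent.H65.TS Pool.Agent.H43.EW Pool.Agent.H7.EW Pool.Agent.H40.EW
  Pool.Agent.H65.EW

/-- **Little advice decides PSPACE, but no total NP search problem is complete**, even under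
Turing reductions and for the problems with unique solutions. -/
theorem result (l : ℕ → ℕ) (hm : Monotone l) (hn : ∀ n, l n ≤ n)
    (hc : PolyTimeFun (fun _ => false) (fun x => List.replicate (l x.length) true))
    (hg : ∀ C : ℕ, ∃ n₀, ∀ n, n₀ ≤ n → n ^ C < 2 ^ l n) :
    ∃ O : List Bool → Bool,
      (∀ L : Set (List Bool), InPSPACE O L →
        (∃ A B : Set (List Bool), InNP O A ∧ InNP O Bᶜ ∧ L = A ∪ B) ∧ InNPOne O L ∧
        InPAdv O l L ∧ ∃ r : Polynomial ℕ, InTime O (fun n => r.eval (2 ^ l (r.eval n))) L) ∧
      ∀ (T : TFNP O) (k : ℕ), ∃ S : TFNP O,
        (∀ x, ∃! y, S.IsSol x y) ∧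
        (∀ x x' y, x.length = x'.length → (S.IsSol x y ↔ S.IsSol x' y)) ∧
        ¬ S.Reduces T ∧ ¬ TuringRed S T ∧ ∀ t : ℕ → ℕ,
          (∀ P : Polynomial ℕ, ∃ b₀, ∀ b, b₀ ≤ b → P.eval (t b) < 2 ^ l (b ^ (k + 1))) →
          ¬ S.ReducesWithin t T ∧ ¬ TuringWithin t S T := by
  obtain ⟨lT, h1, h2⟩ := exists_lT hc
  obtain ⟨O, hO, h⟩ := exists_no_complete_unique loc_Tru hn hm hg
  have hle : ∃ r : Polynomial ℕ, ∀ n, l n ≤ r.eval n :=
    ⟨Polynomial.X, fun n => by rw [Polynomial.eval_X]; exact hn n⟩
  refine ⟨O, fun L hL => ?_, h⟩
  obtain ⟨h3, h4⟩ := classes_of_legal hle ⟨lT, h1, h2⟩ hO hL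
  exact ⟨h4, one_of_legal hle ⟨lT, h1, h2⟩ hO hL, h3,
    inTime_of_superlog h1 (h2 O) hO hm hg (exists_tru hL)⟩

end Pool.Agent.Results.MP_0a7732_lc.LittleAdvice
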